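import Pool.Agent.W682.TW.Stm

set_option autoImplicit false

open scoped BigOperators
open MeasureTheory
open Pool.Agent.W682.TW

namespace Pool.Agent.W140.TW.Ts

variable {m : ℕ}

/-- matrix of a two-scale gradient -/
noncomputable def PP (A : Mt m) (φ : (Fin 2 → ℝ) → (Fin m → ℝ)) (j₀ : Fin m)
    (Ψ : (Fin 2 → ℝ) → ℝ → ℝ) (ε : ℝ) (x : Fin 2 → ℝ) (s : ℝ) : Mt m :=
  A + gr φ x + Matrix.of (fun (i : Fin 2) (j : Fin m) =>
          if j = j₀ ∧ i = 1 then deriv (Ψ x) s else 0)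
    + Matrix.of (fun (i : Fin 2) (j : Fin m) =>
          if j = j₀ then
            ε * fderiv ℝ (Function.uncurry Ψ) (x, s) ((Pi.single i (1 : ℝ) : Fin 2 → ℝ), (0 : ℝ))
          else 0)

lemma der (Ψ : (Fin 2 → ℝ) → ℝ → ℝ)
    (hΨ : ContDiff ℝ ((⊤ : ℕ∞) : WithTop ℕ∞) (Function.uncurry Ψ)) (x : Fin 2 → ℝ) (s : ℝ) :
    deriv (Ψ x) s = fderiv ℝ (Function.uncurry Ψ) (x, s) ((0 : Fin 2 → ℝ), (1 : ℝ)) := by
  have h1 : HasFDerivAt (Function.uncurry Ψ) (fderiv ℝ (Function.uncurry Ψ) (x, s)) (x, s) :=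
    ((hΨ.differentiable (by simp)) (x, s)).hasFDerivAt
  have h2 : HasDerivAt (fun t : ℝ => (x, t)) ((0 : Fin 2 → ℝ), (1 : ℝ)) s :=
    (hasDerivAt_const s x).prodMk (hasDerivAt_id s)
  have h3 := h1.comp_hasDerivAt s h2
  exact h3.deriv

lemma fdper (Ψ : (Fin 2 → ℝ) → ℝ → ℝ)
    (hp : ∀ (x : Fin 2 → ℝ) (s : ℝ), Ψ x (s + 1) = Ψ x s) (x : Fin 2 → ℝ) (s : ℝ) :
    fderiv ℝ (Function.uncurry Ψ) (x, s + 1) = fderiv ℝ (Function.uncurry Ψ) (x, s) := by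
  have h1 : (fun q : (Fin 2 → ℝ) × ℝ => Function.uncurry Ψ (q + ((0 : Fin 2 → ℝ), (1 : ℝ))))
      = Function.uncurry Ψ := by
    funext q
    obtain ⟨y, t⟩ := q
    simp [Function.uncurry, hp]
  have h2 := fderiv_comp_add_right (𝕜 := ℝ) (f := Function.uncurry Ψ)
    (x := (x, s)) ((0 : Fin 2 → ℝ), (1 : ℝ))
  rw [h1] at h2
  rw [h2]
  simp

lemma PPper (A : Mt m) (φ : (Fin 2 → ℝ) → (Fin m → ℝ)) (j₀ : Fin m)
    (Ψ : (Fin 2 → ℝ) → ℝ → ℝ)
    (hΨ : ContDiff ℝ ((⊤ : ℕ∞) : WithTop ℕ∞) (Function.uncurry Ψ))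
    (hp : ∀ (x : Fin 2 → ℝ) (s : ℝ), Ψ x (s + 1) = Ψ x s) (ε : ℝ) (x : Fin 2 → ℝ) :
    Function.Periodic (PP A φ j₀ Ψ ε x) 1 := by
  intro s
  unfold PP
  simp only [der Ψ hΨ, fdper Ψ hp]

lemma PPcont (A : Mt m) (φ : (Fin 2 → ℝ) → (Fin m → ℝ)) (j₀ : Fin m)
    (Ψ : (Fin 2 → ℝ) → ℝ → ℝ)
    (hφ : ContDiff ℝ ((⊤ : ℕ∞) : WithTop ℕ∞) φ)
    (hΨ : ContDiff ℝ ((⊤ : ℕ∞) : WithTop ℕ∞) (Function.uncurry Ψ)) :
    Continuous (fun p : ℝ × ((Fin 2 → ℝ) × ℝ) => PP A φ j₀ Ψ p.1 p.2.1 p.2.2) := by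
  have c1 : Continuous (fun x : Fin 2 → ℝ => fderiv ℝ φ x) := hφ.continuous_fderiv (by simp)
  have c2 : Continuous (fun q : (Fin 2 → ℝ) × ℝ => fderiv ℝ (Function.uncurry Ψ) q) :=
    hΨ.continuous_fderiv (by simp)
  have c3 : ∀ w : (Fin 2 → ℝ) × ℝ, Continuous (fun p : ℝ × ((Fin 2 → ℝ) × ℝ) =>
      fderiv ℝ (Function.uncurry Ψ) (p.2.1, p.2.2) w) := by
    intro w
    exact (c2.comp (by fun_prop : Continuous (fun p : ℝ × ((Fin 2 → ℝ) × ℝ) =>
      (p.2.1, p.2.2)))).clm_apply continuous_const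
  have c4 : ∀ w : Fin 2 → ℝ, Continuous (fun p : ℝ × ((Fin 2 → ℝ) × ℝ) =>
      fderiv ℝ φ p.2.1 w) := by
    intro w
    exact (c1.comp (by fun_prop : Continuous (fun p : ℝ × ((Fin 2 → ℝ) × ℝ) =>
      p.2.1))).clm_apply continuous_const
  refine continuous_matrix (fun i j => ?_)
  simp only [PP, gr, Matrix.add_apply, Matrix.of_apply, der Ψ hΨ]
  refine Continuous.add (Continuous.add (Continuous.add continuous_const ?_) ?_) ?_
  · exact (continuous_apply j).comp (c4 (Pi.single i 1))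
  · by_cases h : j = j₀ ∧ i = 1
    · simp only [h, and_self, if_true]
      exact c3 _
    · simp only [h, if_false]
      exact continuous_const
  · by_cases h : j = j₀
    · simp only [h, if_true]
      exact continuous_fst.mul (c3 _)
    · simp only [h, if_false]
      exact continuous_const

/-- the field -/
noncomputable def uu (φ : (Fin 2 → ℝ) → (Fin m → ℝ)) (j₀ : Fin m)
    (Ψ : (Fin 2 → ℝ) → ℝ → ℝ) (N : ℕ) (y : ℝ) (x : Fin 2 → ℝ) : Fin m → ℝ :=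
  φ x + (Function.uncurry Ψ (x, (N : ℝ) * x 1 + y)) • (Pi.single j₀ (1 / (N : ℝ)) : Fin m → ℝ)

lemma uuAdm (φ : (Fin 2 → ℝ) → (Fin m → ℝ)) (j₀ : Fin m)
    (Ψ : (Fin 2 → ℝ) → ℝ → ℝ) (hφ : Adm φ)
    (hΨ : ContDiff ℝ ((⊤ : ℕ∞) : WithTop ℕ∞) (Function.uncurry Ψ))
    (hx : ∀ (x : Fin 2 → ℝ) (z : Fin 2 → ℤ) (s : ℝ), Ψ (x + fun i => (z i : ℝ)) s = Ψ x s)
    (hp : ∀ (x : Fin 2 → ℝ) (s : ℝ), Ψ x (s + 1) = Ψ x s) (N : ℕ) (y : ℝ) :
    Adm (uu φ j₀ Ψ N y) := by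
  refine ⟨?_, ?_⟩
  · unfold uu
    have h1 : ContDiff ℝ ((⊤ : ℕ∞) : WithTop ℕ∞)
        (fun x : Fin 2 → ℝ => (x, (N : ℝ) * x 1 + y)) := by
      refine contDiff_id.prodMk ?_
      exact (contDiff_const.mul (contDiff_apply ℝ ℝ (1 : Fin 2))).add contDiff_const
    exact hφ.1.add ((hΨ.comp h1).smul contDiff_const)
  · intro x z
    unfold uu
    rw [hφ.2 x z]
    congr 2
    simp only [Function.uncurry, Pi.add_apply]
    rw [hx]
    have hper : Function.Periodic (Ψ x) 1 := hp x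
    have := (hper.int_mul ((N : ℤ) * z 1)) ((N : ℝ) * x 1 + y)
    rw [← this]
    congr 1
    push_cast
    ring

lemma uuGr (A : Mt m) (φ : (Fin 2 → ℝ) → (Fin m → ℝ)) (j₀ : Fin m)
    (Ψ : (Fin 2 → ℝ) → ℝ → ℝ) (hφ : Adm φ)
    (hΨ : ContDiff ℝ ((⊤ : ℕ∞) : WithTop ℕ∞) (Function.uncurry Ψ))
    (N : ℕ) (hN : 0 < N) (y : ℝ) (x : Fin 2 → ℝ) :
    A + gr (uu φ j₀ Ψ N y) x = PP A φ j₀ Ψ (1 / (N : ℝ)) x ((N : ℝ) * x 1 + y) := by
  have hN' : (N : ℝ) ≠ 0 := by positivity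
  have h1 : HasFDerivAt (Function.uncurry Ψ)
      (fderiv ℝ (Function.uncurry Ψ) (x, (N : ℝ) * x 1 + y)) (x, (N : ℝ) * x 1 + y) :=
    ((hΨ.differentiable (by simp)) _).hasFDerivAt
  have h2 : HasFDerivAt (fun x : Fin 2 → ℝ => (x, (N : ℝ) * x 1 + y))
      ((ContinuousLinearMap.id ℝ (Fin 2 → ℝ)).prod
        ((N : ℝ) • (ContinuousLinearMap.proj (R := ℝ) (φ := fun _ : Fin 2 => ℝ) (1 : Fin 2)))) x := by
    refine (hasFDerivAt_id x).prodMk ?_
    exact ((hasFDerivAt_apply (𝕜 := ℝ) (1 : Fin 2) x).const_mul (N : ℝ)).add_const y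
  have h3 := h1.comp x h2
  have h4 : HasFDerivAt φ (fderiv ℝ φ x) x := ((hφ.1.differentiable (by simp)) x).hasFDerivAt
  have h5 := h4.add (h3.smul_const (Pi.single j₀ (1 / (N : ℝ)) : Fin m → ℝ))
  have h6 : fderiv ℝ (uu φ j₀ Ψ N y) x = _ := h5.fderiv
  ext i j
  simp only [PP, gr, Matrix.add_apply, Matrix.of_apply, der Ψ hΨ]
  rw [h6]
  have hdec : (((Pi.single i (1 : ℝ) : Fin 2 → ℝ)), (N : ℝ) * (Pi.single i (1 : ℝ) : Fin 2 → ℝ) 1)
      = (((Pi.single i (1 : ℝ) : Fin 2 → ℝ)), (0 : ℝ))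
        + ((N : ℝ) * (Pi.single i (1 : ℝ) : Fin 2 → ℝ) 1) • ((0 : Fin 2 → ℝ), (1 : ℝ)) := by
    ext <;> simp
  simp only [add_apply, ContinuousLinearMap.smulRight_apply,
    ContinuousLinearMap.comp_apply, ContinuousLinearMap.prod_apply, ContinuousLinearMap.id_apply,
    smul_apply, ContinuousLinearMap.proj_apply, smul_eq_mul, Pi.add_apply,
    Pi.smul_apply]
  rw [hdec, map_add, map_smul]
  by_cases hj : j = j₀
  · subst hj
    by_cases hi : i = 1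
    · subst hi
      simp
      field_simp
      ring
    · have hi' : (Pi.single i (1 : ℝ) : Fin 2 → ℝ) 1 = 0 := by
        rw [Pi.single_apply]
        simp [Ne.symm hi]
      simp [hi, hi']
      ring
  · simp [hj, Pi.single_apply]

theorem main : S_TS := by
  intro m W A φ j₀ Ψ hW hφ hΨ hx hp δ hδ
  set K : ℝ × ((Fin 2 → ℝ) × ℝ) → ℝ := fun p => W (PP A φ j₀ Ψ p.1 p.2.1 p.2.2) with hK
  have hKc : Continuous K := hW.comp (PPcont A φ j₀ Ψ hφ.1 hΨ)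
  have hKp : ∀ ε x, Function.Periodic (fun s => K (ε, (x, s))) 1 := by
    intro ε x s
    simp only [hK]
    rw [PPper A φ j₀ Ψ hΨ hp ε x s]
  have hcube : IsCompact cube := isCompact_univ_pi (fun _ => isCompact_Icc)
  have hcm : MeasurableSet cube := hcube.measurableSet
  have hvol : volume cube = 1 := by
    unfold cube
    rw [volume_pi_pi]
    simp [Real.volume_Icc]
  obtain ⟨N, hN, hNest⟩ : ∃ N : ℕ, 0 < N ∧ ∀ x ∈ cube, ∀ s ∈ Set.Icc (0 : ℝ) 1,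
      K (1 / (N : ℝ), (x, s)) ≤ K (0, (x, s)) + δ := by
    have hcomp : IsCompact ((Set.Icc (0 : ℝ) 1) ×ˢ (cube ×ˢ (Set.Icc (0 : ℝ) 1))) :=
      isCompact_Icc.prod (hcube.prod isCompact_Icc)
    have hu := hcomp.uniformContinuousOn_of_continuous hKc.continuousOn
    rw [Metric.uniformContinuousOn_iff] at hu
    obtain ⟨η, hη, h⟩ := hu δ hδ
    obtain ⟨k, hk⟩ := exists_nat_one_div_lt hη
    refine ⟨k + 1, Nat.succ_pos k, fun x hxc s hs => ?_⟩
    have hk0 : (0 : ℝ) < 1 / ((k : ℝ) + 1) := by positivity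
    have hk1 : 1 / ((k : ℝ) + 1) ≤ 1 := by
      rw [div_le_one (by positivity)]
      have : (0 : ℝ) ≤ k := by positivity
      linarith
    have h1 := h (1 / ((k : ℝ) + 1), (x, s)) ⟨⟨hk0.le, hk1⟩, hxc, hs⟩ (0, (x, s))
      ⟨⟨le_refl _, zero_le_one⟩, hxc, hs⟩ (by
        rw [Prod.dist_eq]
        simp only [dist_self]
        rw [Real.dist_eq, sub_zero, abs_of_pos hk0]
        exact max_lt hk hη)
    rw [Real.dist_eq] at h1
    have h2 := (abs_lt.mp h1).2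
    push_cast
    linarith
  have hNall : ∀ x ∈ cube, ∀ s : ℝ, K (1 / (N : ℝ), (x, s)) ≤ K (0, (x, s)) + δ := by
    intro x hxc s
    have e3 : ∀ ε : ℝ, K (ε, (x, s)) = K (ε, (x, Int.fract s)) := by
      intro ε
      have h1 := ((hKp ε x).int_mul ⌊s⌋) (Int.fract s)
      simp only [mul_one, Int.fract_add_floor] at h1
      exact h1
    have e1 := e3 (1 / (N : ℝ))
    have e2 := e3 0
    rw [e1, e2]
    exact hNest x hxc _ ⟨Int.fract_nonneg s, (Int.fract_lt_one s).le⟩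
  -- the mean over the phase
  have hgc : Continuous (fun q : (Fin 2 → ℝ) × ℝ => K (0, (q.1, (N : ℝ) * q.1 1 + q.2))) :=
    hKc.comp (by fun_prop)
  have hint : Integrable (Function.uncurry (fun (y : ℝ) (x : Fin 2 → ℝ) =>
      K (0, (x, (N : ℝ) * x 1 + y))))
      ((volume.restrict (Set.Ioc (0 : ℝ) 1)).prod (volume.restrict cube)) := by
    rw [Measure.prod_restrict]
    have h1 : IntegrableOn (Function.uncurry (fun (y : ℝ) (x : Fin 2 → ℝ) =>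
      K (0, (x, (N : ℝ) * x 1 + y)))) ((Set.Icc (0 : ℝ) 1) ×ˢ cube) (volume.prod volume) := by
      refine ContinuousOn.integrableOn_compact (isCompact_Icc.prod hcube) ?_
      refine Continuous.continuousOn ?_
      exact hgc.comp continuous_swap
    exact h1.mono_set (Set.prod_mono Set.Ioc_subset_Icc_self (le_refl _))
  have hswap := MeasureTheory.integral_integral_swap hint
  obtain ⟨y, hy, hyle⟩ := MeasureTheory.exists_le_setAverage (μ := volume)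
    (s := Set.Ioc (0 : ℝ) 1) (f := fun y => ∫ x in cube, K (0, (x, (N : ℝ) * x 1 + y)))
    (by simp) (by simp) hint.integral_prod_left
  refine ⟨uu φ j₀ Ψ N y, uuAdm φ j₀ Ψ hφ hΨ hx hp N y, ?_⟩
  have e0 : ∀ x, W (A + gr (uu φ j₀ Ψ N y) x) = K (1 / (N : ℝ), (x, (N : ℝ) * x 1 + y)) := by
    intro x
    rw [uuGr A φ j₀ Ψ hφ hΨ N hN y x]
  have hc1 : Continuous (fun x : Fin 2 → ℝ => K (1 / (N : ℝ), (x, (N : ℝ) * x 1 + y))) :=
    hKc.comp (by fun_prop)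
  have hc2 : Continuous (fun x : Fin 2 → ℝ => K (0, (x, (N : ℝ) * x 1 + y))) :=
    hKc.comp (by fun_prop)
  have hi1 : IntegrableOn (fun x : Fin 2 → ℝ => K (1 / (N : ℝ), (x, (N : ℝ) * x 1 + y))) cube :=
    hc1.continuousOn.integrableOn_compact hcube
  have hi2 : IntegrableOn (fun x : Fin 2 → ℝ => K (0, (x, (N : ℝ) * x 1 + y))) cube :=
    hc2.continuousOn.integrableOn_compact hcube
  have step1 : (∫ x in cube, W (A + gr (uu φ j₀ Ψ N y) x))
      ≤ (∫ x in cube, K (0, (x, (N : ℝ) * x 1 + y))) + δ := by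
    simp only [e0]
    have h1 : (∫ x in cube, K (1 / (N : ℝ), (x, (N : ℝ) * x 1 + y)))
        ≤ ∫ x in cube, (K (0, (x, (N : ℝ) * x 1 + y)) + δ) := by
      refine setIntegral_mono_on hi1 (hi2.add (integrableOn_const (by rw [hvol]; simp))) hcm ?_
      intro x hxc
      exact hNall x hxc _
    refine h1.trans (le_of_eq ?_)
    rw [integral_add hi2 (integrableOn_const (by rw [hvol]; simp))]
    simp [Measure.real, hvol]
  refine step1.trans ?_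
  refine add_le_add ?_ (le_refl δ)
  refine hyle.trans (le_of_eq ?_)
  rw [setAverage_eq]
  simp only [Measure.real, Real.volume_Ioc, sub_zero, ENNReal.toReal_ofReal zero_le_one, inv_one,
    one_smul]
  rw [hswap]
  refine integral_congr_ae (Filter.Eventually.of_forall (fun x => ?_))
  show (∫ y in Set.Ioc (0 : ℝ) 1, K (0, (x, (N : ℝ) * x 1 + y))) = _
  rw [← intervalIntegral.integral_of_le zero_le_one]
  have h2 := intervalIntegral.integral_comp_add_left (a := (0 : ℝ)) (b := 1)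
    (fun s => K (0, (x, s))) ((N : ℝ) * x 1)
  rw [h2]
  have h3 := (hKp 0 x).intervalIntegral_add_eq ((N : ℝ) * x 1) 0
  rw [add_zero, h3, zero_add]
  refine intervalIntegral.integral_congr (fun s _ => ?_)
  simp only [hK, PP]
  congr 1
  ext i j
  simp

end Pool.Agent.W140.TW.Ts
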